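import Mathlib

/-!
Weighted distance matrices and the minor K_{2,3,...,3}.

For every n ≥ 2 and every k there is a connected graph without a K_{2,3,...,3} minor
(n threes) and an edge weighting whose distance matrix has more than k positive eigenvalues.
The graph is the cone over k+1 disjoint copies of K_{2,3}, with unit weights.
-/

open Matrix

namespace Pool.Agent.Results.MP_0b3830_co.Disproof

/-- The weighted distance matrix: the (u,v) entry is the least total weight of a u-v path. -/
noncomputable def wdist {V : Type} (G : SimpleGraph V) (φ : Sym2 V → ℝ) : Matrix V V ℝ :=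
  fun u v => ⨅ p : G.Path u v, (p.1.edges.map φ).sum

/-- The number of positive eigenvalues of a real matrix, counted with multiplicity
(positive roots of the characteristic polynomial). -/
noncomputable def posEig {V : Type} [Fintype V] [DecidableEq V] (M : Matrix V V ℝ) : ℕ :=
  (M.charpoly.roots.filter (fun x => 0 < x)).card

/-- `H` is a minor of `G`: there are pairwise disjoint connected (so nonempty) branch sets in `G`,
one for each vertex of `H`, with an edge of `G` between the branch sets of adjacent vertices. -/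
def IsMinor {W V : Type} (H : SimpleGraph W) (G : SimpleGraph V) : Prop :=
  ∃ B : W → Set V, (∀ w, (G.induce (B w)).Connected) ∧
    (∀ w w', w ≠ w' → Disjoint (B w) (B w')) ∧
    (∀ w w', H.Adj w w' → ∃ v ∈ B w, ∃ v' ∈ B w', G.Adj v v')

/-- The complete multipartite graph with one part of size 2 and `n` parts of size 3. -/
def K233 (n : ℕ) : SimpleGraph (Σ i : Fin (n + 1), Fin (if i = 0 then 2 else 3)) :=
  SimpleGraph.completeMultipartiteGraph (fun i : Fin (n + 1) => Fin (if i = 0 then 2 else 3))

/-- A real symmetric matrix that is positive definite on the image of an injective-on-forms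
linear map from `ι → ℝ` has at least `card ι` positive eigenvalues. -/
theorem card_le_posEig {V ι : Type} [Fintype V] [DecidableEq V] [Fintype ι]
    (M : Matrix V V ℝ) (hM : M.IsHermitian) (T : (ι → ℝ) →ₗ[ℝ] (V → ℝ))
    (hT : ∀ c, c ≠ 0 → 0 < T c ⬝ᵥ (M *ᵥ T c)) : Fintype.card ι ≤ posEig M := by
  classical
  have h1 : posEig M = Fintype.card {j // 0 < hM.eigenvalues j} := by
    unfold posEig
    rw [hM.roots_charpoly_eq_eigenvalues, Multiset.filter_map, Multiset.card_map,
      Fintype.card_subtype]
    rfl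
  rw [h1]
  by_contra hlt
  push Not at hlt
  set U : Matrix V V ℝ := (hM.eigenvectorUnitary : Matrix V V ℝ) with hU
  let L : (ι → ℝ) →ₗ[ℝ] ({j // 0 < hM.eigenvalues j} → ℝ) :=
    (LinearMap.funLeft ℝ ℝ (Subtype.val)).comp ((Matrix.mulVecLin (star U)).comp T)
  have hker : LinearMap.ker L ≠ ⊥ := by
    apply LinearMap.ker_ne_bot_of_finrank_lt
    simpa using hlt
  obtain ⟨c, hc, hc0⟩ := Submodule.exists_mem_ne_zero_of_ne_bot hker
  have hpos := hT c hc0
  have hspec : M = U * diagonal hM.eigenvalues * star U := by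
    have := hM.spectral_theorem
    rw [Unitary.conjStarAlgAut_apply] at this
    simpa [hU] using this
  have hz : ∀ j, 0 < hM.eigenvalues j → (star U *ᵥ T c) j = 0 := by
    intro j hj
    have := congrFun (LinearMap.mem_ker.mp hc) ⟨j, hj⟩
    simpa [L, LinearMap.funLeft_apply] using this
  have hq : T c ⬝ᵥ (M *ᵥ T c) = ∑ j, hM.eigenvalues j * ((star U *ᵥ T c) j) ^ 2 := by
    conv_lhs => rw [hspec]
    rw [← mulVec_mulVec, ← mulVec_mulVec, dotProduct_mulVec]
    have : T c ᵥ* U = star U *ᵥ T c := by
      rw [← mulVec_transpose]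
      rfl
    rw [this]
    simp only [dotProduct, mulVec_diagonal]
    refine Finset.sum_congr rfl fun j _ => ?_
    ring
  rw [hq] at hpos
  have : ∑ j, hM.eigenvalues j * ((star U *ᵥ T c) j) ^ 2 ≤ 0 := by
    refine Finset.sum_nonpos fun j _ => ?_
    by_cases hj : 0 < hM.eigenvalues j
    · rw [hz j hj]; simp
    · exact mul_nonpos_of_nonpos_of_nonneg (not_lt.mp hj) (sq_nonneg _)
  linarith

/-- The cone over `k` disjoint copies of K_{2,3}. -/
def cone (k : ℕ) : SimpleGraph (Option (Fin k × Fin 5)) where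
  Adj u v := match u, v with
    | none, none => False
    | none, some _ => True
    | some _, none => True
    | some x, some y => x.1 = y.1 ∧ ¬ ((x.2.val < 2) ↔ (y.2.val < 2))
  symm := ⟨by
    rintro (_ | x) (_ | y) h
    · exact h
    · trivial
    · trivial
    · exact ⟨h.1.symm, fun h' => h.2 h'.symm⟩⟩
  loopless := ⟨by
    rintro (_ | x) h
    · exact h
    · exact h.2 Iff.rfl⟩

theorem cone_connected (k : ℕ) : (cone k).Connected := by
  have h : ∀ v, (cone k).Reachable none v := by
    rintro (_ | x)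
    · exact SimpleGraph.Reachable.refl _
    · exact SimpleGraph.Adj.reachable (show (cone k).Adj none (some x) from trivial)
  exact ⟨fun u v => (h u).symm.trans (h v)⟩

theorem sum_one {V : Type} {G : SimpleGraph V} {u v : V} (p : G.Walk u v) :
    (p.edges.map (fun _ => (1 : ℝ))).sum = p.length := by
  simp [SimpleGraph.Walk.length_edges]

theorem wdist_eq {V : Type} (G : SimpleGraph V) (u v : V) (m : ℕ) (p : G.Path u v)
    (hp : p.1.length = m) (hm : ∀ q : G.Walk u v, m ≤ q.length) :
    wdist G (fun _ => 1) u v = m := by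
  unfold wdist
  have : Nonempty (G.Path u v) := ⟨p⟩
  apply le_antisymm
  · refine (ciInf_le ⟨0, ?_⟩ p).trans ?_
    · rintro _ ⟨q, rfl⟩
      simp only [sum_one]
      positivity
    · rw [sum_one, hp]
  · refine le_ciInf fun q => ?_
    rw [sum_one]
    exact_mod_cast hm q.1

theorem wdist_self {V : Type} (G : SimpleGraph V) (u : V) : wdist G (fun _ => 1) u u = 0 := by
  have := wdist_eq G u u 0 SimpleGraph.Path.nil rfl (fun _ => Nat.zero_le _)
  simpa using this

theorem wdist_adj {V : Type} (G : SimpleGraph V) (u v : V) (h : G.Adj u v) :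
    wdist G (fun _ => 1) u v = 1 := by
  have := wdist_eq G u v 1 (SimpleGraph.Path.singleton h) rfl (fun q => by
    rcases Nat.eq_zero_or_pos q.length with h0 | h0
    · exact absurd (SimpleGraph.Walk.eq_of_length_eq_zero h0) h.ne
    · exact h0)
  simpa using this

theorem wdist_two {V : Type} (G : SimpleGraph V) (u v w : V) (huv : u ≠ v) (h : ¬ G.Adj u v)
    (h1 : G.Adj u w) (h2 : G.Adj w v) : wdist G (fun _ => 1) u v = 2 := by
  have hp : (SimpleGraph.Walk.cons h1 (SimpleGraph.Walk.cons h2 SimpleGraph.Walk.nil)).IsPath := by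
    simp [SimpleGraph.Walk.cons_isPath_iff, h1.ne, h2.ne, huv]
  have := wdist_eq G u v 2 ⟨_, hp⟩ rfl (fun q => by
    by_contra hq
    push Not at hq
    have : q.length = 0 ∨ q.length = 1 := by omega
    rcases this with h0 | h0
    · exact huv (SimpleGraph.Walk.eq_of_length_eq_zero h0)
    · exact h (SimpleGraph.Walk.adj_of_length_eq_one h0))
  simpa using this

/-- correction term inside a block -/
def E (a b : Fin 5) : ℝ :=
  if a = b then -2 else if ((a.val < 2) ↔ (b.val < 2)) then 0 else -1

theorem wdist_cone_some (k : ℕ) (x y : Fin k × Fin 5) :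
    wdist (cone k) (fun _ => 1) (some x) (some y) = 2 + if x.1 = y.1 then E x.2 y.2 else 0 := by
  by_cases hxy : x = y
  · subst hxy
    rw [wdist_self]
    simp [E]
  · by_cases hadj : (cone k).Adj (some x) (some y)
    · rw [wdist_adj _ _ _ hadj]
      obtain ⟨h1, h2⟩ := hadj
      have h3 : x.2 ≠ y.2 := fun h => hxy (Prod.ext h1 h)
      rw [if_pos h1, E, if_neg h3, if_neg h2]
      norm_num
    · rw [wdist_two _ _ _ none (by simpa using hxy) hadj trivial trivial]
      by_cases h1 : x.1 = y.1
      · have h3 : x.2 ≠ y.2 := fun h => hxy (Prod.ext h1 h)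
        have h2 : (x.2.val < 2) ↔ (y.2.val < 2) := by
          by_contra h2
          exact hadj ⟨h1, h2⟩
        rw [if_pos h1, E, if_neg h3, if_pos h2]
        norm_num
      · rw [if_neg h1]; norm_num

theorem wdist_cone_herm (k : ℕ) : (wdist (cone k) (fun _ => 1)).IsHermitian := by
  ext u v
  simp only [conjTranspose_apply, star_trivial]
  rcases u with _ | x <;> rcases v with _ | y
  · rfl
  · rw [wdist_adj _ _ _ (show (cone k).Adj (some y) none from trivial),
      wdist_adj _ _ _ (show (cone k).Adj none (some y) from trivial)]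
  · rw [wdist_adj _ _ _ (show (cone k).Adj (some x) none from trivial),
      wdist_adj _ _ _ (show (cone k).Adj none (some x) from trivial)]
  · rw [wdist_cone_some, wdist_cone_some]
    have hE : E y.2 x.2 = E x.2 y.2 := by
      unfold E
      simp only [eq_comm (a := y.2), Iff.comm (a := y.2.val < 2)]
    simp only [eq_comm (a := y.1), hE]

/-- test vector inside a block -/
def wt (a : Fin 5) : ℝ := if a.val < 2 then 3 else -2

/-- the test subspace -/
def Tmap (k : ℕ) : (Fin k → ℝ) →ₗ[ℝ] (Option (Fin k × Fin 5) → ℝ) where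
  toFun c := fun u => match u with
    | none => 0
    | some x => c x.1 * wt x.2
  map_add' c d := by
    funext u
    rcases u with _ | x
    · simp
    · simp [add_mul]
  map_smul' r c := by
    funext u
    rcases u with _ | x
    · simp
    · simp [mul_assoc]

theorem sum_wt : ∑ a, wt a = 0 := by
  simp [Fin.sum_univ_five, wt]
  norm_num

theorem sum_wt_E : ∑ a, wt a * ∑ b, E a b * wt b = 12 := by
  simp [Fin.sum_univ_five, wt, E]
  norm_num

theorem quad (k : ℕ) (c : Fin k → ℝ) :
    Tmap k c ⬝ᵥ (wdist (cone k) (fun _ => 1) *ᵥ Tmap k c) = 12 * ∑ i, c i ^ 2 := by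
  have hT0 : Tmap k c none = 0 := rfl
  have hT1 : ∀ x, Tmap k c (some x) = c x.1 * wt x.2 := fun _ => rfl
  have hin : ∀ x : Fin k × Fin 5, (wdist (cone k) (fun _ => 1) *ᵥ Tmap k c) (some x)
      = c x.1 * ∑ b, E x.2 b * wt b := by
    intro x
    simp only [mulVec, dotProduct, Fintype.sum_option, hT0, hT1, mul_zero, zero_add,
      wdist_cone_some, Fintype.sum_prod_type, add_mul, Finset.sum_add_distrib]
    have e1 : ∑ i : Fin k, ∑ b : Fin 5, 2 * (c i * wt b) = 0 := by
      refine Finset.sum_eq_zero fun i _ => ?_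
      rw [← Finset.mul_sum, ← Finset.mul_sum, sum_wt]; simp
    rw [e1, zero_add, Finset.sum_eq_single x.1]
    · simp only [if_true, Finset.mul_sum]
      refine Finset.sum_congr rfl fun b _ => by ring
    · intro i _ hi
      simp [Ne.symm hi]
    · simp
  simp only [dotProduct, Fintype.sum_option, hT0, hT1, zero_mul, zero_add, hin,
    Fintype.sum_prod_type]
  rw [Finset.mul_sum]
  refine Finset.sum_congr rfl fun i _ => ?_
  rw [← sum_wt_E, Finset.sum_mul]
  refine Finset.sum_congr rfl fun a _ => by ring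

theorem le_posEig_cone (k : ℕ) : k ≤ posEig (wdist (cone k) (fun _ => 1)) := by
  have := card_le_posEig _ (wdist_cone_herm k) (Tmap k) (fun c hc => by
    rw [quad]
    obtain ⟨i, hi⟩ := Function.ne_iff.mp hc
    have : 0 < ∑ i, c i ^ 2 :=
      Finset.sum_pos' (fun _ _ => sq_nonneg _) ⟨i, Finset.mem_univ _, by
        have : c i ≠ 0 := hi
        positivity⟩
    positivity)
  simpa using this

/-- the block of a vertex of the cone -/
def blk {k : ℕ} (u : Option (Fin k × Fin 5)) : Option (Fin k) := u.map Prod.fst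

theorem blk_adj {k : ℕ} {u v : Option (Fin k × Fin 5)} (hu : u ≠ none) (hv : v ≠ none)
    (h : (cone k).Adj u v) : blk u = blk v := by
  rcases u with _ | x
  · exact absurd rfl hu
  rcases v with _ | y
  · exact absurd rfl hv
  simp [blk, h.1]

theorem blk_conn {k : ℕ} {S : Set (Option (Fin k × Fin 5))} (hS : none ∉ S)
    (hc : ((cone k).induce S).Connected) {u v : Option (Fin k × Fin 5)} (hu : u ∈ S) (hv : v ∈ S) :
    blk u = blk v := by
  have key : ∀ (a b : S) (_ : ((cone k).induce S).Walk a b), blk a.1 = blk b.1 := by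
    intro a b p
    induction p with
    | nil => rfl
    | @cons a b c h _ ih =>
      refine Eq.trans (blk_adj ?_ ?_ h) ih
      · intro h0; exact hS (h0 ▸ a.2)
      · intro h0; exact hS (h0 ▸ b.2)
  obtain ⟨p⟩ := hc.preconnected ⟨u, hu⟩ ⟨v, hv⟩
  exact key _ _ p

theorem not_minor (n k : ℕ) (hn : 2 ≤ n) : ¬ IsMinor (K233 n) (cone k) := by
  classical
  rintro ⟨B, hconn, hdisj, hadj⟩
  -- a vertex w0 of the minor such that no other branch set contains the apex
  have hw0 : ∃ w0, ∀ w, w ≠ w0 → none ∉ B w := by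
    by_cases h : ∃ w, none ∈ B w
    · obtain ⟨w0, h0⟩ := h
      exact ⟨w0, fun w hw h1 => Set.disjoint_left.mp (hdisj w w0 hw) h1 h0⟩
    · exact ⟨⟨0, ⟨0, by simp⟩⟩, fun w _ h1 => h ⟨w, h1⟩⟩
  obtain ⟨w0, hw0⟩ := hw0
  have hne : ∀ w, ∃ v, v ∈ B w := fun w => by
    obtain ⟨⟨v, hv⟩⟩ := (hconn w).nonempty
    exact ⟨v, hv⟩
  choose r hr using hne
  have hA : ∀ w w', w ≠ w0 → w' ≠ w0 → w.1 ≠ w'.1 → blk (r w) = blk (r w') := by
    intro w w' hw hw' h
    obtain ⟨v, hv, v', hv', hvv⟩ := hadj w w' (by simpa [K233] using h)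
    have e1 := blk_conn (hw0 w hw) (hconn w) (hr w) hv
    have e2 := blk_conn (hw0 w' hw') (hconn w') hv' (hr w')
    have e3 := blk_adj (fun h0 => hw0 w hw (h0 ▸ hv)) (fun h0 => hw0 w' hw' (h0 ▸ hv')) hvv
    rw [e1, e3, e2]
  have hB : ∀ w w', w ≠ w0 → w' ≠ w0 → blk (r w) = blk (r w') := by
    intro w w' hw hw'
    by_cases h : w.1 = w'.1
    · -- pick a part different from those of w and w0
      have : ∃ j : Fin (n + 1), j ≠ w.1 ∧ j ≠ w0.1 := by
        by_contra hj
        push Not at hj
        have hsub : (Finset.univ : Finset (Fin (n + 1))) ⊆ {w.1, w0.1} := by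
          intro j _
          by_cases h1 : j = w.1
          · simp [h1]
          · simp [hj j h1]
        have h2 := Finset.card_le_card hsub
        have h3 : ({w.1, w0.1} : Finset (Fin (n + 1))).card ≤ 2 := Finset.card_le_two
        simp at h2
        omega
      obtain ⟨j, hj1, hj2⟩ := this
      have hpos : 0 < (if j = 0 then 2 else 3) := by split_ifs <;> norm_num
      have hj0 : (⟨j, ⟨0, hpos⟩⟩ : Σ i : Fin (n + 1), Fin (if i = 0 then 2 else 3)) ≠ w0 :=
        fun h0 => hj2 (congrArg Sigma.fst h0)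
      exact (hA w ⟨j, ⟨0, hpos⟩⟩ hw hj0 (Ne.symm hj1)).trans
        (hA ⟨j, ⟨0, hpos⟩⟩ w' hj0 hw' (h ▸ hj1))
    · exact hA w w' hw hw' h
  let f : (Σ i : Fin (n + 1), Fin (if i = 0 then 2 else 3)) → Option (Fin 5) :=
    fun w => if w = w0 then none else (r w).map Prod.snd
  have hf : Function.Injective f := by
    intro w w' h
    by_contra hww
    have hs : ∀ w, w ≠ w0 → ∃ x, r w = some x := fun w hw => by
      rcases hrw : r w with _ | x
      · exact absurd (hrw ▸ hr w) (hw0 w hw)
      · exact ⟨x, rfl⟩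
    by_cases h1 : w = w0
    · have h2 : w' ≠ w0 := fun h2 => hww (h1.trans h2.symm)
      obtain ⟨x, hx⟩ := hs w' h2
      simp [f, h1, h2, hx] at h
    · by_cases h2 : w' = w0
      · obtain ⟨x, hx⟩ := hs w h1
        simp [f, h1, h2, hx] at h
      · obtain ⟨x, hx⟩ := hs w h1
        obtain ⟨y, hy⟩ := hs w' h2
        have e1 := hB w w' h1 h2
        simp [f, h1, h2, hx, hy] at h
        simp [blk, hx, hy] at e1
        have e2 : r w = r w' := by rw [hx, hy, Prod.ext e1 h]
        exact Set.disjoint_left.mp (hdisj w w' hww) (hr w) (e2 ▸ hr w')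
  have hcard := Fintype.card_le_of_injective f hf
  simp [Fintype.card_sigma, Fin.sum_univ_succ] at hcard
  omega

theorem result :
    ∀ n : ℕ, 2 ≤ n → ∀ k : ℕ,
      ∃ (V : Type) (_ : Fintype V) (_ : DecidableEq V) (G : SimpleGraph V),
        G.Connected ∧ ¬ IsMinor (K233 n) G ∧
          ∃ φ : Sym2 V → ℝ, (∀ e ∈ G.edgeSet, 0 < φ e) ∧ k < posEig (wdist G φ) := by
  intro n hn k
  exact ⟨Option (Fin (k + 1) × Fin 5), inferInstance, inferInstance, cone (k + 1),
    cone_connected _, not_minor n _ hn, fun _ => 1, fun _ _ => one_pos, le_posEig_cone (k + 1)⟩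

end Pool.Agent.Results.MP_0b3830_co.Disproof
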